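import Pool.Agent.H30.VR.Targets

/-!
Row RUN of the board ver_modules (`MP_d32443_co`): a long cycle with a chord between two layers
gives a run.
-/

set_option autoImplicit false

open Finset Pool.Agent.H48.CE

namespace Pool.Agent.H13.VR

open Pool.Agent.H30.VR

variable {V : Type} {G : SimpleGraph V} {P Q : Finset V}

theorem side (hPQ : ∀ v ∈ P, v ∉ Q) {u v : V} (h : (bip G P Q).Adj u v) : u ∈ P ↔ v ∉ P := by
  rcases h.2 with ⟨h1, h2⟩ | ⟨h1, h2⟩
  · exact ⟨fun _ hv => hPQ v hv h2, fun _ => h1⟩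
  · exact ⟨fun hu => absurd h1 (hPQ u hu), fun hv => absurd h2 hv⟩

theorem parity (hPQ : ∀ v ∈ P, v ∉ Q) (y : V) : ∀ (l : List V) (x : V),
    (x :: (l ++ [y])).IsChain (bip G P Q).Adj → ((x ∈ P ↔ y ∈ P) ↔ Even (l.length + 1)) := by
  intro l
  induction l with
  | nil =>
    intro x h
    have h1 : (bip G P Q).Adj x y := by simpa using h
    have h2 := side hPQ h1
    have h3 : ¬ Even (([] : List V).length + 1) := by
      rw [List.length_nil]
      decide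
    tauto
  | cons z l ih =>
    intro x h
    rw [List.cons_append, List.isChain_cons_cons] at h
    have h1 := side hPQ h.1
    have h2 := ih z h.2
    rw [List.length_cons, Nat.even_add_one (n := l.length + 1), ← h2]
    tauto

theorem pf_RUN (hBSL : T_BSL) : T_RUN := by
  classical
  intro V G P Q k n c r hPQ hC hn hS
  rcases Nat.eq_zero_or_pos k with rfl | hk
  · exact ⟨0, fun i hi => absurd hi (Nat.not_lt_zero i)⟩
  have h4 := hC.four
  have hs : ∀ i, c i ∈ P ↔ c (i + 1) ∉ P := fun i => side hPQ (hC.adj i)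
  have hor : ∀ i, c i ∈ P ∨ c i ∈ Q := fun i =>
    (hC.adj i).2.elim (fun h => Or.inl h.1) fun h => Or.inr h.1
  obtain ⟨i₀, hi₀⟩ : ∃ i, c i ∈ P := by
    by_cases h : c 0 ∈ P
    · exact ⟨0, h⟩
    · refine ⟨0 + 1, ?_⟩
      by_contra h1
      exact h ((hs 0).2 h1)
  have hi₁ : c (i₀ + 1) ∉ P := (hs i₀).1 hi₀
  have hi₂ : c (i₀ + 1 + 1) ∈ P := by
    by_contra h
    exact hi₁ ((hs (i₀ + 1)).2 h)
  obtain ⟨S, hSd⟩ : ∃ S : Finset V, ∀ v, v ∈ S ↔ v ∈ P ∧ ∃ i, c i = v :=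
    ⟨P.filter fun v => ∃ i, c i = v, fun v => by rw [Finset.mem_filter]⟩
  have hSP : S ⊆ P := fun v hv => ((hSd v).1 hv).1
  have hne : c i₀ ≠ c (i₀ + 1 + 1) := by
    intro h
    have h1 := hC.inj h
    have h2 : (2 : ZMod n) = 0 := by
      have : i₀ + 1 + 1 - i₀ = (2 : ZMod n) := by ring
      rw [← this, ← h1, sub_self]
    have h3 : ((2 : ℕ) : ZMod n) = 0 := by exact_mod_cast h2
    rw [ZMod.natCast_eq_zero_iff] at h3
    have := Nat.le_of_dvd (by norm_num) h3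
    omega
  have hS2 : 2 ≤ S.card := by
    refine Finset.one_lt_card.2 ⟨c i₀, (hSd _).2 ⟨hi₀, i₀, rfl⟩, c (i₀ + 1 + 1),
      (hSd _).2 ⟨hi₂, _, rfl⟩, hne⟩
  obtain ⟨A, hAS, hAne, hAS', j, hj, hcon⟩ := hS S hSP hS2
  have hAP : ∀ v ∈ A, v ∈ P := fun v hv => hSP (hAS hv)
  refine ⟨j + 1, fun i hi => ?_⟩
  obtain ⟨x, y, hx, hy, l, hl, hpt, hlc⟩ := hBSL (bip G P Q) n c r hC (fun i => c i ∈ A)
    (by
      obtain ⟨a, ha⟩ := hAne
      obtain ⟨_, i, hi⟩ := (hSd a).1 (hAS ha)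
      exact ⟨i, by rw [hi]; exact ha⟩)
    ⟨i₀ + 1, fun h => hi₁ (hAP _ h)⟩
    (by
      intro halt
      refine hAS' (Finset.Subset.antisymm hAS fun v hv => ?_)
      obtain ⟨hvP, i, rfl⟩ := (hSd v).1 hv
      by_contra h
      have h1 : c (i + 1) ∈ A := (halt i).2 h
      exact (hs i).1 hvP (hAP _ h1))
    (2 * (i + 1)) (by omega) (by omega)
  have hyP : c y ∈ P := by
    have h1 := (parity hPQ (c y) l (c x) hpt.2).2 (by rw [hl]; exact even_two_mul _)
    exact h1.1 (hAP _ hx)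
  obtain ⟨m', hm', hptm, hmi⟩ := hcon (c x) hx (c y) ((hSd _).2 ⟨hyP, y, rfl⟩) hy
  have hptG : Pt G (c x) l (c y) := ⟨hpt.1, hpt.2.imp fun _ _ h => h.1⟩
  have hcy := cy_of_two hptG hptm (by
    intro v hv hv'
    obtain ⟨t, rfl⟩ := hlc v hv
    have h1 := hmi _ hv'
    exact (hor t).elim h1.1 h1.2) (by omega)
  have e : l.length + m'.length + 2 = 2 * (j + 1) + 2 * i := by omega
  rw [e] at hcy
  exact hcy

end Pool.Agent.H13.VR
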